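import Mathlib
import Pool.Agent.W439.TR.Three

set_option autoImplicit false

/-!
# Every second marginal of a stationary 2-dependent 3-colouring is rigid
-/

namespace Pool.Agent.Results.MP_341645_pr.ParityRigidity

open MeasureTheory ProbabilityTheory

/-- `μ` is the law of a stationary 2-dependent 3-colouring of the integers. -/
structure IsLaw (μ : Measure (ℤ → Fin 3)) : Prop where
  prob : IsProbabilityMeasure μ
  stationary : Measure.map (fun (x : ℤ → Fin 3) (n : ℤ) => x (n + 1)) μ = μ
  coloring : ∀ᵐ x ∂μ, ∀ n : ℤ, x n ≠ x (n + 1)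
  dependence : ∀ A B : Set ℤ, (∀ a ∈ A, ∀ b ∈ B, (2 : ℤ) < |a - b|) →
    IndepFun (fun (x : ℤ → Fin 3) (a : A) => x a) (fun (x : ℤ → Fin 3) (b : B) => x b) μ

/-- The probability that the colouring with law `μ` shows the word `w` at the sites
`0, 1, …, |w| - 1`. -/
noncomputable def wordProb (μ : Measure (ℤ → Fin 3)) (w : List (Fin 3)) : ℝ :=
  μ.real {x | ∀ i : Fin w.length, x ((i : ℕ) : ℤ) = w.get i}

/-- **Parity rigidity.** If two stationary 2-dependent 3-colourings of the integers have the same
`n`-letter word probabilities, then `Q(w) - (-1) ^ n Q(reversed w)` is the same for both, for every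
word `w` with `n + 1` letters. In particular, for reflection invariant laws the law of `2 k - 1`
consecutive colours determines the law of `2 k` consecutive colours. -/
theorem result : ∀ μ ν : Measure (ℤ → Fin 3), IsLaw μ → IsLaw ν →
    ∀ n : ℕ, (∀ w : List (Fin 3), w.length = n → wordProb μ w = wordProb ν w) →
      ∀ w : List (Fin 3), w.length = n + 1 →
        wordProb μ w - (-1) ^ n * wordProb μ w.reverse =
          wordProb ν w - (-1) ^ n * wordProb ν w.reverse := by
  intro μ ν hμ hν n h w hw
  have hμ' : Pool.Agent.H588R3.TC.IsColoringLaw μ :=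
    ⟨hμ.prob, hμ.stationary, hμ.coloring, hμ.dependence⟩
  have hν' : Pool.Agent.H588R3.TC.IsColoringLaw ν :=
    ⟨hν.prob, hν.stationary, hν.coloring, hν.dependence⟩
  exact Pool.Agent.W439.TR.three_parity hμ' hν' n h w hw

end Pool.Agent.Results.MP_341645_pr.ParityRigidity
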