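import Mathlib
import Pool.Agent.W439.TR.Three2

set_option autoImplicit false

/-!
# A stationary 2-dependent 3-colouring is determined by its two-run words
-/

namespace Pool.Agent.Results.MP_341645_pr.TwoRunWords

open MeasureTheory ProbabilityTheory

/-- `μ` is the law of a stationary 2-dependent 3-colouring of the integers. -/
structure IsLaw (μ : Measure (ℤ → Fin 3)) : Prop where
  prob : IsProbabilityMeasure μ
  stationary : Measure.map (fun (x : ℤ → Fin 3) (n : ℤ) => x (n + 1)) μ = μ
  coloring : ∀ᵐ x ∂μ, ∀ n : ℤ, x n ≠ x (n + 1)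
  dependence : ∀ A B : Set ℤ, (∀ a ∈ A, ∀ b ∈ B, (2 : ℤ) < |a - b|) →
    IndepFun (fun (x : ℤ → Fin 3) (a : A) => x a) (fun (x : ℤ → Fin 3) (b : B) => x b) μ

/-- `μ` is invariant under the reflection of the integers. -/
def Reflected (μ : Measure (ℤ → Fin 3)) : Prop :=
  Measure.map (fun x : ℤ → Fin 3 => fun n : ℤ => x (-n)) μ = μ

/-- The event that the colours 0 and 1 alternate on the sites `-i, …, 0`, the colours 0 and 2
alternate on the sites `0, …, j`, and site 0 has colour 0. -/
def TwoRun (i j : ℕ) : Set (ℤ → Fin 3) :=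
  {x | (∀ k : ℕ, k ≤ i → x (-(k : ℤ)) = if k % 2 = 0 then 0 else 1) ∧
    ∀ k : ℕ, k ≤ j → x (k : ℤ) = if k % 2 = 0 then 0 else 2}

/-- **Two-run words determine the law.** If two stationary 2-dependent 3-colourings of the integers
give equal probability to colour 1 at site 0, to the events `TwoRun i j` with `i` odd, and to
those with `i = 0` and `j` even or `j = 0` and `i` even, then they have the same law. If both laws
are reflection invariant, the events with `i` odd and `j` even are not needed either. -/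
theorem result : ∀ μ ν : Measure (ℤ → Fin 3), IsLaw μ → IsLaw ν →
    μ {x | x 0 = 1} = ν {x | x 0 = 1} →
    (∀ i j : ℕ, (Odd i ∨ (i = 0 ∧ Even j) ∨ (j = 0 ∧ Even i)) →
      ¬ (Reflected μ ∧ Reflected ν ∧ Odd i ∧ Even j) → μ (TwoRun i j) = ν (TwoRun i j)) →
    μ = ν := by
  intro μ ν hμ hν h1 h
  have hμ' : Pool.Agent.H588R3.TC.IsColoringLaw μ :=
    ⟨hμ.prob, hμ.stationary, hμ.coloring, hμ.dependence⟩
  have hν' : Pool.Agent.H588R3.TC.IsColoringLaw ν :=
    ⟨hν.prob, hν.stationary, hν.coloring, hν.dependence⟩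
  refine Pool.Agent.W439.TR.three_main2 hμ' hν' h1 (fun i j hij => ?_) ?_
  · rcases hij with ⟨hi, hj⟩ | hij | hij
    · exact h i j (Or.inl hi) (fun hc => (Nat.not_odd_iff_even.2 hc.2.2.2) hj)
    · refine h i j (Or.inr (Or.inl hij)) (fun hc => ?_)
      have := hc.2.2.1
      rw [hij.1] at this
      exact absurd this (by decide)
    · refine h i j (Or.inr (Or.inr hij)) (fun hc => ?_)
      exact (Nat.not_odd_iff_even.2 hij.2) hc.2.2.1
  · by_cases hr : Reflected μ ∧ Reflected ν
    · exact Or.inl hr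
    · exact Or.inr (fun i j hi hj => h i j (Or.inl hi) (fun hc => hr ⟨hc.1, hc.2.1⟩))

end Pool.Agent.Results.MP_341645_pr.TwoRunWords
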